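import Mathlib
import Pool.Agent.Q220.Grp.Thr

/-!
# Every infinite countable group carries a generating measure with finite critical parameter
-/

set_option autoImplicit false

open Pool.Agent.Q220.Grp.Thr
open scoped ENNReal NNReal

namespace Pool.Agent.Results.MP_9aa340_pr.FiniteThreshold

/-- Every countably infinite group `Γ` admits a generating measure `μ` with `λ_c(μ) < ∞`. -/
theorem result : ∀ (Γ : Type*) [Group Γ] [Countable Γ] [Infinite Γ],
    ∃ μ : GeneratingMeasure Γ, criticalParameter μ < ⊤ := by
  intro Γ _ _ _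
  obtain ⟨μ, hμ⟩ := exists_measure (Γ := Γ) 2 (by norm_num)
  exact ⟨μ, lt_of_le_of_lt hμ ENNReal.coe_lt_top⟩

end Pool.Agent.Results.MP_9aa340_pr.FiniteThreshold
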